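import Pool.Agent.Helper43.BO.OfHam
import Pool.Agent.Helper43.LA.RowsDvd
import Pool.Agent.Helper71.HD.BTwo

/-!
# The odd case of (B): reduction to the top-down step

`TDOdd` is the step from the quotient by the first label `g` to the group.
-/

set_option autoImplicit false

namespace Pool.Agent.Helper43.BO

open Finset Pool.Agent.Helper82.Part Pool.Agent.Helper74.BL Pool.Agent.Helper4.Sel
open Pool.Agent.Helper43.LA

/-- the top-down step for groups of odd order: from a decomposition of the quotient by the first
label `g` to one of the group -/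
def TDOdd : Prop :=
  ∀ (K : Type) [AddCommGroup K] [Finite K] [DecidableEq K] (J : Type) [Fintype J] [DecidableEq J]
    (g : K) (f : J → K),
    Odd (Nat.card K) → g ≠ 0 → 2 ≤ Fintype.card J → Function.Injective f →
    CI (fun x : K => AddSubgroup.zmultiples x) (AddSubgroup.zmultiples g) (univ.image f) →
    3 ^ Fintype.card J ≤ Nat.card (K ⧸ AddSubgroup.zmultiples g) →
    EDec (fun j => QuotientAddGroup.mk' (AddSubgroup.zmultiples g) (f j)) → EDec (lab g f)

theorem eq_zero_of_odd {K : Type*} [AddCommGroup K] [Finite K] (hodd : Odd (Nat.card K)) {x : K}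
    (hx : x + x = 0) : x = 0 := by
  have h1 : addOrderOf x ∣ 2 := addOrderOf_dvd_of_nsmul_eq_zero (by rw [two_nsmul, hx])
  have h2 : addOrderOf x ∣ Nat.card K := addOrderOf_dvd_natCard x
  have h3 := Odd.of_dvd_nat hodd h2
  rcases (Nat.dvd_prime Nat.prime_two).1 h1 with h | h
  · exact AddMonoid.addOrderOf_eq_one_iff.1 h
  · rw [h] at h3
    exact absurd h3 (by decide)

theorem CI.neg_notMem {K : Type*} [AddCommGroup K] [DecidableEq K] {B : Finset K}
    (h : CI (fun x : K => AddSubgroup.zmultiples x) ⊥ B)
    (h2 : ∀ x ∈ B, x + x ≠ 0) : ∀ s ∈ B, -s ∉ B := by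
  induction h with
  | empty => simp
  | @insert x B hB hx ih =>
    have hxB : ∀ y ∈ B, x ≠ -y := by
      rintro y hy rfl
      apply hx
      rw [bot_sup_eq, AddSubgroup.zmultiples_le]
      exact neg_mem ((le_sup (f := fun x : K => AddSubgroup.zmultiples x) hy : _)
        (AddSubgroup.mem_zmultiples y))
    intro s hs hs'
    rw [mem_insert] at hs hs'
    rcases hs with rfl | hs
    · rcases hs' with h | h
      · exact h2 s (mem_insert_self _ _) (by nth_rewrite 1 [← h]; simp)
      · exact hxB _ h (by simp)
    · rcases hs' with h | h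
      · exact hxB _ hs h.symm
      · exact ih (fun x hx => h2 x (mem_insert_of_mem hx)) s hs h

/-- the quotient of a group of odd order -/
theorem odd_quot {K : Type*} [AddCommGroup K] [Finite K] (hodd : Odd (Nat.card K))
    (H : AddSubgroup K) : Odd (Nat.card (K ⧸ H)) :=
  Odd.of_dvd_nat hodd ⟨Nat.card H, by rw [mul_comm]; exact AddSubgroup.card_eq_card_quotient_mul_card_addSubgroup H ▸ by ring⟩

/-- reindexing a decomposition along a bijection of the labels -/
theorem EDec.of_image {K Q : Type*} [AddCommGroup K] [AddCommGroup Q] [DecidableEq K]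
    [DecidableEq Q] (φ : K → Q) {B : Finset K} (hinj : Set.InjOn φ (B : Set K))
    (h : EDec (fun b : (B.image φ : Finset Q) => (b : Q))) :
    EDec (fun b : B => φ b) := by
  classical
  let σ : B ≃ (B.image φ : Finset Q) :=
    Equiv.ofBijective (fun b => ⟨φ b, mem_image_of_mem φ b.2⟩) ⟨by
      intro a b hab
      exact Subtype.ext (hinj a.2 b.2 (congrArg Subtype.val hab)), by
      rintro ⟨c, hc⟩
      obtain ⟨b, hb, rfl⟩ := mem_image.1 hc
      exact ⟨⟨b, hb⟩, rfl⟩⟩
  exact h.reindex σ

theorem eDec_of_TDOdd (hTD : TDOdd) : ∀ (n : ℕ) (G : Type) [AddCommGroup G] [Finite G]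
    [DecidableEq G], Odd (Nat.card G) → ∀ B : Finset G, B.card ≤ n → 
    CI (fun x : G => AddSubgroup.zmultiples x) ⊥ B →
    AddSubgroup.closure (B : Set G) = ⊤ → B.Nonempty → EDec (fun b : B => (b : G)) := by
  intro n
  induction n with
  | zero =>
    intro G _ _ _ _ B hB _ _ hne
    exact absurd (card_eq_zero.1 (Nat.le_zero.1 hB)) hne.ne_empty
  | succ n ih =>
    intro G _ _ _ hodd B hBn hci hgen hne
    have h0 : ∀ x ∈ B, x ≠ 0 := by
      rintro x hx rfl
      exact CI.not_le hci 0 hx (by simp)
    have h2 : ∀ x ∈ B, x + x ≠ 0 := fun x hx h => h0 x hx (eq_zero_of_odd hodd h)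
    have hneg := CI.neg_notMem hci h2
    by_cases hcard : B.card ≤ 2
    · exact HamDec.eDec hneg (Pool.Agent.Helper71.HD.bLemma_two B hci hneg hgen hne hcard)
    push Not at hcard
    obtain ⟨g, hg, hcig⟩ := CI.exists_first hci hne
    set H := AddSubgroup.zmultiples g with hH
    classical
    obtain ⟨hq1, hq2⟩ := CI.quot hcig
    set B' := B.erase g with hB'
    have hB'card : B'.card = B.card - 1 := card_erase_of_mem hg
    have himg : (B'.image (QuotientAddGroup.mk' H)).card = B'.card :=
      card_image_of_injOn hq2
    have hgenQ : AddSubgroup.closure ((B'.image (QuotientAddGroup.mk' H) : Finset (G ⧸ H)) :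
        Set (G ⧸ H)) = ⊤ := by
      rw [eq_top_iff]
      have h1 : (⊤ : AddSubgroup (G ⧸ H)) = (⊤ : AddSubgroup G).map (QuotientAddGroup.mk' H) := by
        rw [← AddMonoidHom.range_eq_map, AddMonoidHom.range_eq_top.2
          (QuotientAddGroup.mk'_surjective H)]
      rw [h1, ← hgen, AddMonoidHom.map_closure, AddSubgroup.closure_le]
      rintro _ ⟨x, hx, rfl⟩
      by_cases hxg : x = g
      · subst hxg
        have : QuotientAddGroup.mk' H x = 0 := by
          rw [← AddMonoidHom.mem_ker, QuotientAddGroup.ker_mk']
          exact AddSubgroup.mem_zmultiples x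
        rw [this]
        exact zero_mem _
      · apply AddSubgroup.subset_closure
        rw [mem_coe]
        exact mem_image_of_mem _ (mem_erase.2 ⟨hxg, hx⟩)
    have hB'ne : B'.Nonempty := by
      rw [← card_pos]
      omega
    have hQ : EDec (fun b : (B'.image (QuotientAddGroup.mk' H) : Finset (G ⧸ H)) =>
        (b : G ⧸ H)) := by
      refine ih (G ⧸ H) (odd_quot hodd H) _ ?_ hq1 hgenQ (hB'ne.image _)
      omega
    have hQ' : EDec (fun b : B' => QuotientAddGroup.mk' H (b : G)) := EDec.of_image _ hq2 hQ
    have himg' : (univ.image (fun b : B' => (b : G))) = B' := by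
      ext x
      simp
    have hM : 3 ^ B'.card ≤ Nat.card (G ⧸ H) := by
      have h3 := CI.card_le_odd hodd hcig
      have h4 : H ⊔ B'.sup (fun x : G => AddSubgroup.zmultiples x) = ⊤ := by
        rw [hH]
        have h5 : AddSubgroup.zmultiples g ⊔ B'.sup (fun x : G => AddSubgroup.zmultiples x) =
            B.sup (fun x : G => AddSubgroup.zmultiples x) := by
          rw [← sup_insert (f := fun x : G => AddSubgroup.zmultiples x), hB', insert_erase hg]
        rw [h5, sup_zmultiples, hgen]
      rw [h4, AddSubgroup.card_top,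
        AddSubgroup.card_eq_card_quotient_mul_card_addSubgroup H, mul_comm] at h3
      exact Nat.le_of_mul_le_mul_right h3 Nat.card_pos
    have hmain : EDec (lab g (fun b : B' => (b : G))) := by
      refine hTD G B' g _ hodd (h0 g hg) ?_ Subtype.val_injective ?_ ?_ hQ'
      · rw [Fintype.card_coe]
        omega
      · rw [himg']
        exact hcig
      · rw [Fintype.card_coe]
        exact hM
    let σ : B ≃ Option B' :=
      { toFun := fun b => if h : (b : G) = g then none else some ⟨b, mem_erase.2 ⟨h, b.2⟩⟩
        invFun := fun o => o.elim ⟨g, hg⟩ fun b => ⟨b, mem_of_mem_erase b.2⟩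
        left_inv := by
          intro b
          by_cases h : (b : G) = g
          · simp only [h, dif_pos, Option.elim]
            exact Subtype.ext h.symm
          · simp only [h, dif_neg, not_false_eq_true, Option.elim]
        right_inv := by
          rintro (_ | b)
          · simp
          · have h : (b : G) ≠ g := ne_of_mem_erase b.2
            simp [h] }
    have hfin := hmain.reindex σ
    have heq : (fun i => lab g (fun b : B' => (b : G)) (σ i)) = fun b : B => (b : G) := by
      funext b
      by_cases h : (b : G) = g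
      · have : σ b = none := by simp [σ, h]
        rw [this, lab_none, h]
      · have : σ b = some ⟨b, mem_erase.2 ⟨h, b.2⟩⟩ := by simp [σ, h]
        rw [this, lab_some]
    rw [heq] at hfin
    exact hfin

/-- **(B) for groups of odd order** from the top-down step -/
theorem bLemmaOdd_of_TDOdd (hTD : TDOdd) : BLemmaOdd := by
  intro G _ _ _ hodd B hci hneg hgen hne
  exact (eDec_of_TDOdd hTD B.card G hodd B le_rfl hci hgen hne).hamDec hneg

end Pool.Agent.Helper43.BO
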