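import Pool.Agent.Helper74.BL.Base
import Pool.Agent.Helper82.CI.Group

/-!
# Chain independent families, quotients by the first element
-/

set_option autoImplicit false

namespace Pool.Agent.Helper43.BO

open Finset Pool.Agent.Helper82.Part Pool.Agent.Helper74.BL

section First

variable {α L : Type*} [DecidableEq α] [SemilatticeSup L] [OrderBot L] {e : α → L}

/-- a nonempty chain independent set has a first element -/
theorem CI.exists_first {B : Finset α} (h : CI e ⊥ B) (hB : B.Nonempty) :
    ∃ g ∈ B, CI e (e g) (B.erase g) := by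
  induction h with
  | empty => exact absurd rfl hB.ne_empty
  | @insert x B hB' hx ih =>
    rcases B.eq_empty_or_nonempty with rfl | hne
    · exact ⟨x, mem_insert_self _ _, by simpa using CI.empty⟩
    · obtain ⟨g, hg, hci⟩ := ih hne
      have hxB : x ∉ B := fun h => hx (le_sup_of_le_right (le_sup (f := e) h))
      have hxg : x ≠ g := fun h => hxB (h ▸ hg)
      refine ⟨g, mem_insert_of_mem hg, ?_⟩
      rw [erase_insert_of_ne hxg]
      refine CI.insert hci fun h => hx (h.trans ?_)
      rw [← sup_insert, insert_erase hg]
      exact le_sup_right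

end First

section Quot

variable {K : Type*} [AddCommGroup K] [DecidableEq K]

theorem sup_image_mk (H : AddSubgroup K) [DecidableEq (K ⧸ H)] (B : Finset K) :
    (B.image (QuotientAddGroup.mk' H)).sup (fun x : K ⧸ H => AddSubgroup.zmultiples x) =
      (B.sup (fun x : K => AddSubgroup.zmultiples x)).map (QuotientAddGroup.mk' H) := by
  rw [sup_zmultiples, sup_zmultiples, AddMonoidHom.map_closure, coe_image]

/-- chain independence over `H` passes to the quotient by `H` -/
theorem CI.quot {H : AddSubgroup K} [DecidableEq (K ⧸ H)] {B : Finset K}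
    (h : CI (fun x : K => AddSubgroup.zmultiples x) H B) :
    CI (fun x : K ⧸ H => AddSubgroup.zmultiples x) ⊥ (B.image (QuotientAddGroup.mk' H)) ∧
      Set.InjOn (QuotientAddGroup.mk' H) (B : Set K) := by
  induction h with
  | empty => exact ⟨by simpa using CI.empty, by simp⟩
  | @insert x B hB hx ih =>
    have key : ∀ z : K, QuotientAddGroup.mk' H z ∈
        (B.sup (fun x : K => AddSubgroup.zmultiples x)).map (QuotientAddGroup.mk' H) →
        z ∈ H ⊔ B.sup (fun x : K => AddSubgroup.zmultiples x) := by
      rintro z ⟨y, hy, hyz⟩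
      have h1 : z - y ∈ H := by
        have h2 : QuotientAddGroup.mk' H (z - y) = 0 := by rw [map_sub, hyz, sub_self]
        rwa [← AddMonoidHom.mem_ker, QuotientAddGroup.ker_mk'] at h2
      have h2 : z = (z - y) + y := by abel
      rw [h2]
      exact add_mem (AddSubgroup.mem_sup_left h1) (AddSubgroup.mem_sup_right hy)
    refine ⟨?_, ?_⟩
    · rw [image_insert]
      refine CI.insert ih.1 fun h => hx ?_
      rw [bot_sup_eq, AddSubgroup.zmultiples_le, sup_image_mk] at h
      rw [AddSubgroup.zmultiples_le]
      exact key x h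
    · rw [coe_insert]
      refine (Set.injOn_insert ?_).2 ⟨ih.2, ?_⟩
      · intro h
        exact hx ((le_sup (f := fun x : K => AddSubgroup.zmultiples x) (mem_coe.1 h)).trans
          le_sup_right)
      · rintro ⟨y, hy, hyx⟩
        apply hx
        rw [AddSubgroup.zmultiples_le]
        refine key x ⟨y, ?_, hyx⟩
        exact (le_sup (f := fun x : K => AddSubgroup.zmultiples x) (mem_coe.1 hy) : _)
          (AddSubgroup.mem_zmultiples y)

theorem CI.card_le_odd [Finite K] (hodd : Odd (Nat.card K)) {H : AddSubgroup K} {B : Finset K}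
    (h : CI (fun x : K => AddSubgroup.zmultiples x) H B) :
    Nat.card H * 3 ^ B.card ≤
      Nat.card (H ⊔ B.sup (fun x : K => AddSubgroup.zmultiples x) : AddSubgroup K) := by
  induction h with
  | empty => simp
  | @insert x B hB hx ih =>
    have hxB : x ∉ B := fun h => hx ((le_sup (f := fun x : K => AddSubgroup.zmultiples x) h).trans
      le_sup_right)
    rw [card_insert_of_notMem hxB, sup_insert, pow_succ]
    have hlt : H ⊔ B.sup (fun x : K => AddSubgroup.zmultiples x) <
        H ⊔ (AddSubgroup.zmultiples x ⊔ B.sup (fun x : K => AddSubgroup.zmultiples x)) := by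
      refine lt_of_le_of_ne (sup_le_sup_left le_sup_right _) fun h => hx ?_
      rw [h]
      exact le_sup_left.trans le_sup_right
    obtain ⟨c, hc⟩ := AddSubgroup.card_dvd_of_le hlt.le
    have h2 := card_strictMono hlt
    simp only at h2
    have h3 : Odd (Nat.card (H ⊔ (AddSubgroup.zmultiples x ⊔
        B.sup (fun x : K => AddSubgroup.zmultiples x)) : AddSubgroup K)) :=
      Odd.of_dvd_nat hodd (AddSubgroup.card_addSubgroup_dvd_card _)
    rw [hc] at h3 h2 ⊢
    rw [Nat.odd_mul] at h3
    have h4 : 3 ≤ c := by
      rcases c with _ | _ | _ | c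
      · omega
      · omega
      · exact absurd h3.2 (by decide)
      · omega
    calc Nat.card H * (3 ^ B.card * 3) = (Nat.card H * 3 ^ B.card) * 3 := by ring
      _ ≤ _ := Nat.mul_le_mul ih h4

end Quot

end Pool.Agent.Helper43.BO
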