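import Pool.Agent.Helper43.BO.Chain

/-!
# From Hamilton decompositions of Cayley graphs to colourings
-/

set_option autoImplicit false

namespace Pool.Agent.Helper43.BO

open Finset Pool.Agent.Helper82.Part Pool.Agent.Helper74.BL Pool.Agent.Helper4.Sel

theorem HamDec.eDec {G : Type*} [AddCommGroup G] [DecidableEq G] {B : Finset G}
    (hB : ∀ s ∈ B, -s ∉ B) (h : HamDec G (B : Set G)) : EDec (fun b : B => (b : G)) := by
  classical
  obtain ⟨Z, hZ, hle, huniq⟩ := h
  have h0 : ∀ i : B, (i : G) ≠ 0 := by
    rintro ⟨i, hi⟩ h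
    simp only at h
    subst h
    exact hB 0 hi (by simpa using hi)
  have hneg : ∀ i j : B, (i : G) ≠ -(j : G) := by
    intro i j h
    exact hB _ j.2 (h ▸ i.2)
  have hcirc : ∀ x y, (SimpleGraph.circulantGraph (B : Set G)).Adj x y ↔
      (∃ i : B, y = x + (i : G)) ∨ ∃ i : B, y = x - (i : G) := by
    intro x y
    rw [SimpleGraph.circulantGraph_adj]
    simp only [Finset.mem_coe]
    constructor
    · rintro ⟨-, h | h⟩
      · exact Or.inr ⟨⟨_, h⟩, by simp⟩
      · exact Or.inl ⟨⟨_, h⟩, by simp⟩
    · rintro (⟨i, rfl⟩ | ⟨i, rfl⟩)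
      · exact ⟨fun h1 => h0 i (left_eq_add.1 h1), Or.inr (by simp)⟩
      · exact ⟨fun h1 => h0 i (sub_eq_self.1 h1.symm), Or.inl (by simp)⟩
  have hadj : ∀ (x : G) (i : B), (SimpleGraph.circulantGraph (B : Set G)).Adj x (x + i) :=
    fun x i => (hcirc _ _).2 (Or.inl ⟨i, rfl⟩)
  let col : G → B → B := fun x i => (huniq x (x + i) (hadj x i)).choose
  have hcol : ∀ (x : G) (i : B), (Z (col x i)).Adj x (x + i) := fun x i =>
    (huniq x (x + i) (hadj x i)).choose_spec.1
  have hcol' : ∀ (x : G) (i c : B), (Z c).Adj x (x + i) → col x i = c := fun x i c h =>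
    ((huniq x (x + i) (hadj x i)).choose_spec.2 c h).symm
  have hiff : ∀ (x : G) (i c : B), col x i = c ↔ (Z c).Adj x (x + i) := fun x i c =>
    ⟨fun h => h ▸ hcol x i, hcol' x i c⟩
  refine ⟨col, ?_, ?_⟩
  · intro v c
    have h1 : (Z c).neighborSet v =
        ((univ.filter fun i : B => col v i = c).image (fun i : B => v + (i : G)) ∪
        (univ.filter fun i : B => col (v - (i : G)) i = c).image
          (fun i : B => v - (i : G)) : Finset G) := by
      ext w
      rw [SimpleGraph.mem_neighborSet]
      simp only [coe_union, coe_image, coe_filter, mem_univ, true_and, Set.mem_union,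
        Set.mem_image, Set.mem_ofPred_eq]
      constructor
      · intro h
        rcases (hcirc _ _).1 (hle c h) with ⟨i, rfl⟩ | ⟨i, rfl⟩
        · exact Or.inl ⟨i, (hiff _ _ _).2 h, rfl⟩
        · exact Or.inr ⟨i, (hiff _ _ _).2 (by rw [sub_add_cancel]; exact h.symm), rfl⟩
      · rintro (⟨i, h1, rfl⟩ | ⟨i, h1, rfl⟩)
        · exact (hiff _ _ _).1 h1
        · have h2 := (hiff _ _ _).1 h1
          rw [sub_add_cancel] at h2
          exact h2.symm
    have h2 := (hZ c).2 v
    rw [h1, Set.encard_coe_eq_coe_finsetCard, card_union_of_disjoint, card_image_of_injective,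
      card_image_of_injective] at h2
    · unfold hdeg
      exact_mod_cast h2
    · intro i j hij
      exact Subtype.ext (sub_right_injective hij)
    · intro i j hij
      exact Subtype.ext (add_right_injective v hij)
    · rw [disjoint_left]
      intro w h2 h3
      rw [mem_image] at h2 h3
      obtain ⟨i, -, rfl⟩ := h2
      obtain ⟨j, -, h3⟩ := h3
      apply hneg i j
      rw [sub_eq_add_neg] at h3
      exact (add_left_cancel h3).symm
  · intro c P hP x y hx
    have key : ∀ z w, (Z c).Adj z w → (z ∈ P ↔ w ∈ P) := by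
      intro z w hzw
      rcases (hcirc _ _).1 (hle c hzw) with ⟨i, rfl⟩ | ⟨i, rfl⟩
      · exact hP z i ((hiff _ _ _).2 hzw)
      · have := hP (z - i) i ((hiff _ _ _).2 (by rw [sub_add_cancel]; exact hzw.symm))
        rw [sub_add_cancel] at this
        exact this.symm
    obtain ⟨p⟩ := (hZ c).1.preconnected x y
    induction p with
    | nil => exact hx
    | cons h p ih => exact ih ((key _ _ h).1 hx)

end Pool.Agent.Helper43.BO
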