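import Pool.Agent.Helper74.BL.Cut

/-!
# Merging the components of a class along a tree

Many squares are switched at once; the squares form a forest on the components of the class. Then
a function which is constant along the new class is constant along the old one.
-/

set_option autoImplicit false

namespace Pool.Agent.Helper43.BO

open Finset Pool.Agent.Helper74.BL

variable {V E ι J : Type*} [DecidableEq E] {ends : E → Sym2 V} {H : Finset E}

/-- the edges which are removed by the switches in `S` -/
def removed [DecidableEq ι] (a b : ι → E) (S : Finset ι) : Finset E := S.image a ∪ S.image b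

theorem mem_removed [DecidableEq ι] {a b : ι → E} {S : Finset ι} {e : E} :
    e ∈ removed a b S ↔ ∃ i ∈ S, e = a i ∨ e = b i := by
  simp only [removed, mem_union, mem_image]
  constructor
  · rintro (⟨i, hi, rfl⟩ | ⟨i, hi, rfl⟩)
    · exact ⟨i, hi, Or.inl rfl⟩
    · exact ⟨i, hi, Or.inr rfl⟩
  · rintro ⟨i, hi, rfl | rfl⟩
    · exact Or.inl ⟨i, hi, rfl⟩
    · exact Or.inr ⟨i, hi, rfl⟩

/-- a set `S` of switches is a forest on the values of `comp`: every nonempty subset has a leaf -/
def Forest (comp : V → J) (x₁ x₂ : ι → V) (S : Finset ι) : Prop :=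
  ∀ S' ⊆ S, S'.Nonempty → ∃ i ∈ S', comp (x₁ i) ≠ comp (x₂ i) ∧ ∃ j, (j = comp (x₁ i) ∨
    j = comp (x₂ i)) ∧ ∀ i' ∈ S', i' ≠ i → comp (x₁ i') ≠ j ∧ comp (x₂ i') ≠ j

theorem Forest.mono {comp : V → J} {x₁ x₂ : ι → V} {S S' : Finset ι} (h : Forest comp x₁ x₂ S)
    (hS : S' ⊆ S) : Forest comp x₁ x₂ S' := fun S'' h'' => h S'' (h''.trans hS)

/-- one leaf: the only removed edge `x y` of a component does not matter -/
theorem leaf_edge (hH : Ev ends H) {comp : V → J}
    (hcomp : ∀ e ∈ H, ∀ x y, ends e = s(x, y) → comp x = comp y) {R : Finset E} {c : E} {x y : V}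
    (hc : c ∈ H) (ec : ends c = s(x, y)) {C : V → ZMod 2} (hC : Cst ends (H \ R) C)
    (hR : ∀ e ∈ R, e ∈ H → e ≠ c → ∀ u v, ends e = s(u, v) → comp u ≠ comp x) : C x = C y := by
  classical
  set F : V → ZMod 2 := fun v => if comp v = comp x then C v else 0 with hF
  have h1 : ∀ e ∈ H \ {c}, bd F (ends e) = 0 := by
    intro e he
    rw [mem_sdiff, mem_singleton] at he
    obtain ⟨he, hec⟩ := he
    obtain ⟨u, v, huv⟩ : ∃ u v, ends e = s(u, v) := by
      induction h : ends e using Sym2.ind with
      | _ u v => exact ⟨u, v, rfl⟩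
    have h2 := hcomp e he u v huv
    rw [huv, bd_mk_eq_zero]
    simp only [hF]
    by_cases hu : comp u = comp x
    · rw [if_pos hu, if_pos (h2 ▸ hu)]
      by_cases heR : e ∈ R
      · exact absurd hu (hR e heR he hec u v huv)
      · have h3 := hC e (mem_sdiff.2 ⟨he, heR⟩)
        rwa [huv, bd_mk_eq_zero] at h3
    · rw [if_neg hu, if_neg (h2 ▸ hu)]
  have h2 := hH.one hc h1 c hc
  rw [ec, bd_mk_eq_zero] at h2
  simp only [hF] at h2
  rwa [if_pos trivial, if_pos (hcomp c hc x y ec).symm] at h2

/-- **TREE MERGE**: switches `x₁ y₁, x₂ y₂ → x₁ x₂, y₁ y₂` which form a forest on the components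
only join components. -/
theorem tree_merge [DecidableEq ι] (hH : Ev ends H) {comp : V → J}
    (hcomp : ∀ e ∈ H, ∀ x y, ends e = s(x, y) → comp x = comp y) {a b : ι → E}
    {x₁ y₁ x₂ y₂ : ι → V} {C : V → ZMod 2} : ∀ (n : ℕ) (S : Finset ι), S.card = n →
    (∀ i ∈ S, a i ∈ H) → (∀ i ∈ S, b i ∈ H) → (∀ i ∈ S, ends (a i) = s(x₁ i, y₁ i)) →
    (∀ i ∈ S, ends (b i) = s(x₂ i, y₂ i)) → Forest comp x₁ x₂ S →
    Cst ends (H \ removed a b S) C → (∀ i ∈ S, C (x₁ i) = C (x₂ i)) →
    (∀ i ∈ S, C (y₁ i) = C (y₂ i)) → Cst ends H C := by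
  intro n
  induction n with
  | zero =>
    intro S hS _ _ _ _ _ hC _ _
    rw [card_eq_zero.1 hS] at hC
    simpa [removed] using hC
  | succ n ih =>
    intro S hS ha hb ea eb hF hC hx hy
    have hne : S.Nonempty := by
      rw [← card_pos]
      omega
    obtain ⟨i, hi, hij, j, hj, hleaf⟩ := hF S Subset.rfl hne
    -- the two removed edges of the leaf do not matter
    have key : C (x₁ i) = C (y₁ i) ∧ C (x₂ i) = C (y₂ i) := by
      rcases hj with rfl | rfl
      · have h1 : C (x₁ i) = C (y₁ i) := by
          refine leaf_edge hH hcomp (ha i hi) (ea i hi) hC ?_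
          intro e heR heH hec u v huv
          obtain ⟨i', hi', h2⟩ := mem_removed.1 heR
          by_cases hii : i' = i
          · subst hii
            rcases h2 with rfl | rfl
            · exact absurd rfl hec
            · rw [eb _ hi'] at huv
              rcases Sym2.eq_iff.1 huv with ⟨h3, -⟩ | ⟨-, h3⟩
              · rw [← h3]
                exact hij.symm
              · rw [← h3, ← hcomp _ heH _ _ (eb _ hi')]
                exact hij.symm
          · obtain ⟨l1, l2⟩ := hleaf i' hi' hii
            rcases h2 with rfl | rfl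
            · rw [ea _ hi'] at huv
              rcases Sym2.eq_iff.1 huv with ⟨h3, -⟩ | ⟨-, h3⟩
              · rwa [← h3]
              · rwa [← h3, ← hcomp _ heH _ _ (ea _ hi')]
            · rw [eb _ hi'] at huv
              rcases Sym2.eq_iff.1 huv with ⟨h3, -⟩ | ⟨-, h3⟩
              · rwa [← h3]
              · rwa [← h3, ← hcomp _ heH _ _ (eb _ hi')]
        exact ⟨h1, by rw [← hx i hi, ← hy i hi, h1]⟩
      · have h1 : C (x₂ i) = C (y₂ i) := by
          refine leaf_edge hH hcomp (hb i hi) (eb i hi) hC ?_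
          intro e heR heH hec u v huv
          obtain ⟨i', hi', h2⟩ := mem_removed.1 heR
          by_cases hii : i' = i
          · subst hii
            rcases h2 with rfl | rfl
            · rw [ea _ hi'] at huv
              rcases Sym2.eq_iff.1 huv with ⟨h3, -⟩ | ⟨-, h3⟩
              · rw [← h3]
                exact hij
              · rw [← h3, ← hcomp _ heH _ _ (ea _ hi')]
                exact hij
            · exact absurd rfl hec
          · obtain ⟨l1, l2⟩ := hleaf i' hi' hii
            rcases h2 with rfl | rfl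
            · rw [ea _ hi'] at huv
              rcases Sym2.eq_iff.1 huv with ⟨h3, -⟩ | ⟨-, h3⟩
              · rwa [← h3]
              · rwa [← h3, ← hcomp _ heH _ _ (ea _ hi')]
            · rw [eb _ hi'] at huv
              rcases Sym2.eq_iff.1 huv with ⟨h3, -⟩ | ⟨-, h3⟩
              · rwa [← h3]
              · rwa [← h3, ← hcomp _ heH _ _ (eb _ hi')]
        exact ⟨by rw [hx i hi, hy i hi, h1], h1⟩
    refine ih (S.erase i) (by rw [card_erase_of_mem hi, hS]; rfl)
      (fun i' h => ha i' (mem_of_mem_erase h)) (fun i' h => hb i' (mem_of_mem_erase h))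
      (fun i' h => ea i' (mem_of_mem_erase h)) (fun i' h => eb i' (mem_of_mem_erase h))
      (hF.mono (erase_subset _ _)) ?_ (fun i' h => hx i' (mem_of_mem_erase h))
      (fun i' h => hy i' (mem_of_mem_erase h))
    intro e he
    rw [mem_sdiff] at he
    by_cases h : e ∈ removed a b S
    · obtain ⟨i', hi', h2⟩ := mem_removed.1 h
      by_cases hii : i' = i
      · subst hii
        rcases h2 with rfl | rfl
        · rw [ea _ hi', bd_mk_eq_zero]
          exact key.1
        · rw [eb _ hi', bd_mk_eq_zero]
          exact key.2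
      · exact absurd (mem_removed.2 ⟨i', mem_erase.2 ⟨hii, hi'⟩, h2⟩) he.2
    · exact hC e (mem_sdiff.2 ⟨he.1, h⟩)

end Pool.Agent.Helper43.BO
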